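import Pool.Agent.Helper27.BI.S5.St5n
import Pool.Agent.Helper18.BI.AsmA
import Pool.Agent.Helper27.BI.H.Hat
import Pool.Agent.Helper18.BI.R.M_REL4
import Pool.Agent.Helper18.BI.R.M_EVM

/-!
# Project BI, stage 5, module SQF (with the order of the quantifiers corrected)
-/

set_option autoImplicit false

open scoped Manifold ContDiff Topology ComplexConjugate
open Set Filter Pool.Agent.Helper65.Barb Pool.Agent.Helper18.BI
open Pool.Agent.Helper70.BI (I4 LD NearEq IsW)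
open Pool.Agent.Helper34.BI (rade qe)
open Pool.Agent.Helper27.BI (e1)
open Pool.Agent.Helper27.H
open Pool.Agent.Helper18.BI.H (mm bar)
open Pool.Agent.Helper18.BI.R (LoopOK SH S2 bp)

namespace Pool.Agent.Helper27.S5

/-- The corrected form of `StSQF`: a bound `δ₀` for `δ'` is fixed before `τ₀`. -/
def StSQF' : Prop :=
  ∀ (F : R4 → R4) (δ₀ : ℝ), EmbOn I4 F (SP ∪ shell δ₀) → ∃ τ₀ > 0, ∀ τ₁ ∈ Ioo 0 τ₀,
    ∀ δ δ' κ β : ℝ, Par δ δ' κ β → δ' ≤ δ₀ → ∀ g : R3 → R4, ContinuousOn g S2 →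
    (∀ m ∈ S2, 9 / 10 ≤ m.1 → g m = F (1 / 2, (73 / 100, ((10 * (1 - m.1) * τ₁ : ℝ) : ℂ)))) →
    (∀ m ∈ S2, m.1 ≤ 9 / 10 → ∀ p ∈ XX δ' κ β, g m ≠ F (sq 0 p)) →
    ∃ ε₀ > 0, ∀ ε ∈ Ioo 0 ε₀, ∃ (f : ℝ → ℝ → R4) (H : ℝ × ℝ × ℝ → R4),
      ContinuousOn (fun z : ℝ × ℝ => f z.1 z.2) (Icc (0 : ℝ) 1 ×ˢ Icc (9 / 20 : ℝ) (11 / 20)) ∧
      (∀ q ∈ Icc (0 : ℝ) 1, ∀ s ∈ Icc (9 / 20 : ℝ) (11 / 20),
        (∀ p ∈ XX δ' κ β, f q s ≠ F (sq ε p)) ∧
        ((q = 0 ∨ q = 1 ∨ s = 9 / 20 ∨ s = 11 / 20) → f q s = F (sq ε (s, (73 / 100, 0)))) ∧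
        H (0, q, s) = f q s ∧
        H (1, q, s) = g (mm q s) + (F (sq ε (s, (73 / 100, 0))) - bp F)) ∧
      ContinuousOn H (Icc (0 : ℝ) 1 ×ˢ (Icc (0 : ℝ) 1 ×ˢ Icc (9 / 20 : ℝ) (11 / 20))) ∧
      ∀ u ∈ Icc (0 : ℝ) 1, ∀ q ∈ Icc (0 : ℝ) 1, ∀ s ∈ Icc (9 / 20 : ℝ) (11 / 20),
        (∀ p ∈ wallS δ ∪ wallS δ', H (u, q, s) ≠ F (sq ε p)) ∧
        ((q = 0 ∨ q = 1 ∨ s = 9 / 20 ∨ s = 11 / 20) →
          H (u, q, s) = F (sq ε (s, (73 / 100, 0))))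

namespace SQF

/-- the cut-off -/
noncomputable def lm (t : ℝ) : ℝ := max 0 (2 * t - 1)

/-- the collar path in the limit -/
noncomputable def Pt (t τ : ℝ) : R4 := (1 / 2, (73 / 100, ((t * τ : ℝ) : ℂ)))

/-- the collar path -/
noncomputable def Yp (τ ε s t : ℝ) : R4 :=
  (1 / 2 + (1 - lm t) * (ε * (s - 1 / 2)),
    ((1 - lm t) * axc ε (73 / 100) + lm t * (73 / 100), ((t * τ : ℝ) : ℂ)))

theorem continuous_lm : Continuous lm := by
  unfold lm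
  fun_prop

theorem continuous_axc (a : ℝ) : Continuous (fun ε => axc ε a) := by
  unfold axc
  fun_prop

theorem continuous_Yp (τ : ℝ) : Continuous (fun x : ℝ × ℝ × ℝ => Yp τ x.1 x.2.1 x.2.2) := by
  have h1 : Continuous (fun x : ℝ × ℝ × ℝ => lm x.2.2) :=
    continuous_lm.comp (continuous_snd.comp continuous_snd)
  have h2 : Continuous (fun x : ℝ × ℝ × ℝ => axc x.1 (73 / 100)) :=
    (continuous_axc _).comp continuous_fst
  unfold Yp
  refine Continuous.prodMk ?_ (Continuous.prodMk ?_ ?_)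
  · fun_prop
  · fun_prop
  · exact Complex.continuous_ofReal.comp (by fun_prop)

theorem Yp_zero (τ s t : ℝ) : Yp τ 0 s t = Pt t τ := by
  unfold Yp Pt
  rw [S4.axc0_mid (by norm_num) (by norm_num)]
  ext1
  · simp
  · ext1
    · show (1 - lm t) * (73 / 100) + lm t * (73 / 100) = (73 / 100 : ℝ)
      ring
    · rfl

theorem lm_low {t : ℝ} (h : t ≤ 1 / 2) : lm t = 0 := max_eq_left (by linarith)

theorem lm_one : lm 1 = 1 := by
  unfold lm
  norm_num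

theorem Yp_one (τ ε s : ℝ) : Yp τ ε s 1 = Pt 1 τ := by
  unfold Yp Pt
  rw [lm_one]
  ext1
  · simp
  · ext1
    · simp
    · rfl

theorem Yp_t0 (τ ε s : ℝ) : Yp τ ε s 0 = sq ε (s, (73 / 100, 0)) := by
  unfold Yp Pool.Agent.Helper18.BI.sq
  rw [lm_low (by norm_num)]
  ext1
  · simp
  · ext1
    · simp
    · simp

theorem Pt_zero (τ : ℝ) : Pt 0 τ = bar (73 / 100) := by
  unfold Pt bar
  simp

theorem axc_inj {ε a b : ℝ} (hε : 0 < ε) (h : axc ε a = axc ε b) : a = b := by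
  obtain ⟨-, d, hd⟩ := hS2.2.1 ε hε
  have hm : StrictMono (axc ε) := by
    apply strictMono_of_deriv_pos
    intro x
    rw [(hd x).1.deriv]
    exact (hd x).2
  exact hm.injective h

theorem fac_pos {ε a k : ℝ} (hε : 0 < ε) (hk : 0 ≤ k) : 0 < fac ε a k :=
  (hS1 ε (prof ε a) k hε (hS2.1 ε a hε) hk).1

theorem chn_of {τ ε s t : ℝ} {p : R4} (hε : 0 < ε) (hτ : 0 ≤ τ) (hs : s ∈ Icc (9 / 20 : ℝ) (11 / 20))
    (ht0 : 0 ≤ t) (ht : t ≤ 1 / 2) (h : Yp τ ε s t = sq ε p) : p ∈ Chn := by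
  unfold Yp Pool.Agent.Helper18.BI.sq at h
  rw [lm_low ht] at h
  have h1 := congrArg (fun x : R4 => x.1) h
  have h2 := congrArg (fun x : R4 => x.2.1) h
  have h3 := congrArg (fun x : R4 => x.2.2) h
  simp only at h1 h2 h3
  have e1 : s = p.1 := by
    rw [sub_zero, one_mul] at h1
    exact sub_left_injective (mul_left_cancel₀ hε.ne' (add_left_cancel h1))
  have e2 : (73 / 100 : ℝ) = p.2.1 := by
    apply axc_inj hε
    rw [← h2, sub_zero, one_mul, zero_mul, add_zero]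
  have hf := fac_pos (a := p.2.1) hε (Complex.normSq_nonneg p.2.2)
  have e3 : p.2.2.im = 0 := by
    have h4 := congrArg Complex.im h3
    rw [Complex.ofReal_im, Complex.im_ofReal_mul] at h4
    rcases mul_eq_zero.1 h4.symm with h5 | h5
    · exact absurd h5 hf.ne'
    · exact h5
  have e4 : 0 ≤ p.2.2.re := by
    have h4 := congrArg Complex.re h3
    rw [Complex.ofReal_re, Complex.re_ofReal_mul] at h4
    by_contra h5
    rw [not_le] at h5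
    have h6 := mul_neg_of_pos_of_neg hf h5
    have h7 : 0 ≤ t * τ := mul_nonneg ht0 hτ
    rw [← h4] at h6
    exact absurd h7 (not_le.2 h6)
  refine ⟨?_, ?_, ?_, ?_, ?_⟩
  · rw [← e1]
    exact lt_of_lt_of_le (by norm_num) hs.1
  · rw [← e1]
    exact lt_of_le_of_lt hs.2 (by norm_num)
  · rw [← e2]
    norm_num
  · rw [e3]
    norm_num
  · exact lt_of_lt_of_le (by norm_num) e4

/-! ## the sets -/

theorem rsq_Pt (t τ : ℝ) : rsq 1 (Pt t τ) = (27 / 100) ^ 2 + (t * τ) ^ 2 := by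
  rw [rsq_eq']
  unfold Pt
  simp only [Complex.ofReal_re, Complex.ofReal_im]
  norm_num

theorem rsq_Pt0 (t τ : ℝ) : rsq 0 (Pt t τ) = (73 / 100) ^ 2 + (t * τ) ^ 2 := by
  rw [rsq_eq']
  unfold Pt
  simp only [Complex.ofReal_re, Complex.ofReal_im]
  norm_num

theorem SQF_aux1 {x : ℝ} (h : (73 / 100) ^ 2 + x ^ 2 ≤ 1 / 25) : False := by
  have h1 := sq_nonneg x
  norm_num at h
  linarith

theorem SQF_aux2 {x : ℝ} (h : (27 / 100) ^ 2 + x ^ 2 ≤ 1 / 25) : False := by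
  have h1 := sq_nonneg x
  norm_num at h
  linarith

theorem Pt_notMem {t τ δ : ℝ} (h : t * τ ≠ 0) : Pt t τ ∉ SP ∪ shell δ := by
  have h1 := rsq_Pt t τ
  have h0 := rsq_Pt0 t τ
  rintro (((h2 | h2) | h2) | h2)
  · have h3 := h2.2
    rw [h0] at h3
    exact SQF_aux1 h3.le
  · have h3 := h2.2
    rw [h1] at h3
    exact SQF_aux2 h3.le
  · have h3 : ((t * τ : ℝ) : ℂ) = 0 := h2.2.2.2
    exact h (by exact_mod_cast h3)
  · have h3 := h2.2.2
    rw [h1] at h3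
    exact SQF_aux2 h3

theorem SQF_aux3 {a b c : ℝ} (h : (a - 1) ^ 2 + b ^ 2 + c ^ 2 ≤ 49 / 100) :
    1 / 25 ≤ (a - 0) ^ 2 + b ^ 2 + c ^ 2 := by
  have hb := sq_nonneg b
  have hc := sq_nonneg c
  have h2 : 3 / 10 ≤ a := by
    have h3 : (1 - a) ^ 2 ≤ (7 / 10) ^ 2 := by
      have e : (1 - a) ^ 2 = (a - 1) ^ 2 := by ring
      rw [e]
      norm_num
      linarith
    have h4 := abs_le_of_sq_le_sq' h3 (by norm_num)
    linarith [h4.2]
  have h5 : (3 / 10 : ℝ) ^ 2 ≤ a ^ 2 := pow_le_pow_left₀ (by norm_num) h2 2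
  rw [sub_zero]
  norm_num at h5
  linarith

theorem sq0_Reg {δ : ℝ} {p : R4} (hp : p ∈ Reg δ) : sq 0 p ∈ SP ∪ shell δ := by
  rcases le_or_gt (1 / 25) (rsq 1 p) with h | h
  · left
    apply hS4.1
    refine ⟨?_, le_trans (by norm_num) h⟩
    have h1 := hp.2.2.2
    rw [rsq_eq'] at h1 ⊢
    refine le_trans ?_ (SQF_aux3 h1)
    norm_num
  · right
    rw [hS4.2.2.1 p (Or.inr (Or.inl h.le))]
    exact ⟨rfl, hp.2.2.1, h.le⟩

theorem SQF_aux4 {a b c : ℝ} (h : (a - 1) ^ 2 + b ^ 2 + c ^ 2 ≤ 49 / 100) :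
    -2 ≤ a ∧ a ≤ 2 ∧ b * b + c * c ≤ 1 := by
  have hb := sq_nonneg b
  have hc := sq_nonneg c
  have ha := sq_nonneg (a - 1)
  have h3 : (a - 1) ^ 2 ≤ 1 ^ 2 := by linarith
  have h4 := abs_le_of_sq_le_sq' h3 (by norm_num)
  refine ⟨by linarith [h4.1], by linarith [h4.2], ?_⟩
  rw [← pow_two, ← pow_two]
  linarith

theorem isCompact_Reg (δ : ℝ) : IsCompact (Reg δ) := by
  have hcl : IsClosed (Reg δ) :=
    (isClosed_le continuous_const continuous_fst).inter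
      ((isClosed_le continuous_fst continuous_const).inter
        ((isClosed_le continuous_const (continuous_rsq 1)).inter
          (isClosed_le (continuous_rsq 1) continuous_const)))
  refine (isCompact_closedBall (0 : R4) 2).of_isClosed_subset hcl ?_
  intro p hp
  have h1 := hp.2.2.2
  rw [rsq_eq'] at h1
  obtain ⟨k1, k2, k3⟩ := SQF_aux4 h1
  rw [mem_closedBall_zero_iff, Prod.norm_def, Prod.norm_def]
  refine max_le ?_ (max_le ?_ ?_)
  · rw [Real.norm_eq_abs, abs_of_nonneg hp.1]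
    exact hp.2.1.trans (by norm_num)
  · rw [Real.norm_eq_abs]
    exact abs_le.2 ⟨k1, k2⟩
  · have h2 : ‖p.2.2‖ ^ 2 ≤ 1 := by
      rw [← Complex.normSq_eq_norm_sq, Complex.normSq_apply]
      exact k3
    exact ((sq_le_one_iff₀ (norm_nonneg _)).1 h2).trans (by norm_num)

theorem isOpen_Chn : IsOpen Chn := by
  have c1 : Continuous (fun p : R4 => p.2.1) := continuous_fst.comp continuous_snd
  have c2 : Continuous (fun p : R4 => p.2.2.im) := by fun_prop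
  have c3 : Continuous (fun p : R4 => p.2.2.re) := by fun_prop
  exact (isOpen_lt continuous_const continuous_fst).inter
    ((isOpen_lt continuous_fst continuous_const).inter
      ((isOpen_lt (continuous_abs.comp (c1.sub continuous_const)) continuous_const).inter
        ((isOpen_lt (continuous_abs.comp c2) continuous_const).inter
          (isOpen_lt continuous_const c3))))

theorem continuous_sgi (κ β : ℝ) : Continuous (sgi κ β) := by
  unfold sgi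
  fun_prop

theorem isCompact_XX (δ κ β : ℝ) : IsCompact (XX δ κ β) := by
  have h : XX δ κ β = Reg δ \ ({p | rsq 1 (sgi κ β p) < 1 / 25 - 3 * δ} ∪ Chn) := by
    ext p
    constructor
    · rintro ⟨h1, h2⟩
      refine ⟨h1, fun h3 => h2 ?_⟩
      rcases h3 with h3 | h3
      · exact Or.inl ⟨h1.1, h1.2.1, h3⟩
      · exact Or.inr h3
    · rintro ⟨h1, h2⟩
      refine ⟨h1, fun h3 => h2 ?_⟩
      rcases h3 with h3 | h3
      · exact Or.inl h3.2.2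
      · exact Or.inr h3
  rw [h]
  refine (isCompact_Reg δ).diff (IsOpen.union ?_ isOpen_Chn)
  exact isOpen_lt ((continuous_rsq 1).comp (continuous_sgi κ β)) continuous_const

theorem sgi_rsq {κ β : ℝ} (hκ : 0 < κ) (p : R4) :
    κ ^ 2 * rsq 1 (sgi κ β p) = (p.2.1 - 1) ^ 2 + (p.2.2.re - β) ^ 2 + p.2.2.im ^ 2 := by
  have hk : κ * κ⁻¹ = 1 := mul_inv_cancel₀ hκ.ne'
  have h1 : (sgi κ β p).2.1 - 1 = κ⁻¹ * (p.2.1 - 1) := by
    unfold sgi P2 e1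
    simp
  have h2 : (sgi κ β p).2.2.re = κ⁻¹ * (p.2.2.re - β) := by
    unfold sgi P2 e1
    simp
  have h3 : (sgi κ β p).2.2.im = κ⁻¹ * p.2.2.im := by
    unfold sgi P2 e1
    simp
  rw [rsq_eq', h1, h2, h3]
  rw [mul_add, mul_add, ← mul_pow, ← mul_pow, ← mul_pow, ← mul_assoc, ← mul_assoc, ← mul_assoc, hk,
    one_mul, one_mul, one_mul]

theorem SQF_aux5 {S D β κ : ℝ} (h0 : D ^ 2 ≤ S) (hS : S ≤ κ ^ 2 * (1 / 25)) (hκ : 0 < κ)
    (hβ : 0 < β) : β * D ≤ (κ * β) * (1 / 5) ∧ -((κ * β) * (1 / 5)) ≤ β * D := by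
  have h4 : D ^ 2 ≤ (κ * (1 / 5)) ^ 2 := by
    have e : (κ * (1 / 5)) ^ 2 = κ ^ 2 * (1 / 25) := by ring
    rw [e]
    exact h0.trans hS
  have h5 := abs_le_of_sq_le_sq' h4 (mul_nonneg hκ.le (by norm_num))
  have h6 := mul_le_mul_of_nonneg_left h5.1 hβ.le
  have h7 := mul_le_mul_of_nonneg_left h5.2 hβ.le
  have e1 : β * (κ * (1 / 5)) = (κ * β) * (1 / 5) := by ring
  have e2 : β * -(κ * (1 / 5)) = -((κ * β) * (1 / 5)) := by ring
  rw [e1] at h7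
  rw [e2] at h6
  exact ⟨h7, h6⟩

theorem SQF_aux6 {R S X δ B K M : ℝ} (hR : R = S + 2 * X + B) (hS : S ≤ K * (1 / 25))
    (hX : X ≤ M * (1 / 5)) (hM : 0 < M) (hK : 0 ≤ K) (hi : B + 2 * M + K < 1 / 25 - 3 * δ)
    (h : 1 / 25 - 3 * δ ≤ R) : False := by
  linarith

theorem SQF_aux7 {R S X δ B K M : ℝ} (hR : R = S + 2 * X + B) (hS : 0 ≤ S)
    (hX : -(M * (1 / 5)) ≤ X) (hM : 0 < M) (hK : K ≤ M) (lo : 1 / 25 - δ < B - 2 * M + K)
    (h : R ≤ 1 / 25 - δ) : False := by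
  linarith

theorem SQF_aux8 {δ κ β a b c : ℝ} (k0 : 0 < κ) (k1 : κ < β)
    (h3 : (a - 1) ^ 2 + (b - β) ^ 2 + c ^ 2 ≤ κ ^ 2 * (1 / 25)) :
    ((β + κ) ^ 2 < 1 / 25 - 3 * δ → 1 / 25 - 3 * δ ≤ (a - 1) ^ 2 + b ^ 2 + c ^ 2 → False) ∧
      (1 / 25 - δ < (β - κ) ^ 2 → (a - 1) ^ 2 + b ^ 2 + c ^ 2 ≤ 1 / 25 - δ → False) := by
  have hβ : 0 < β := k0.trans k1
  have hM : 0 < κ * β := mul_pos k0 hβ
  have hR : (a - 1) ^ 2 + b ^ 2 + c ^ 2 = ((a - 1) ^ 2 + (b - β) ^ 2 + c ^ 2) +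
      2 * (β * (b - β)) + β ^ 2 := by ring
  have hA := sq_nonneg (a - 1)
  have hC := sq_nonneg c
  have hB := sq_nonneg (b - β)
  generalize hS' : (a - 1) ^ 2 + (b - β) ^ 2 + c ^ 2 = S at h3 hR
  have h0 : (b - β) ^ 2 ≤ S := by
    rw [← hS']
    exact (le_add_of_nonneg_left hA).trans (le_add_of_nonneg_right hC)
  obtain ⟨x1, x2⟩ := SQF_aux5 h0 h3 k0 hβ
  constructor
  · intro hi h
    have e : (β + κ) ^ 2 = β ^ 2 + 2 * (κ * β) + κ ^ 2 := by ring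
    rw [e] at hi
    exact SQF_aux6 hR h3 x1 hM (sq_nonneg κ) hi h
  · intro lo h
    have e : (β - κ) ^ 2 = β ^ 2 - 2 * (κ * β) + κ ^ 2 := by ring
    rw [e] at lo
    have hK : κ ^ 2 ≤ κ * β := by
      rw [pow_two]
      exact mul_le_mul_of_nonneg_left k1.le k0.le
    exact SQF_aux7 hR (hB.trans h0) x2 hM hK lo h

theorem SQF_aux10 {x : ℝ} (h0 : 19 / 20 < x) (h : x ≤ 1) :
    9 / 10 ≤ x ∧ 0 ≤ 10 * (1 - x) ∧ 10 * (1 - x) ≤ 1 / 2 :=
  ⟨by linarith, by linarith, by linarith⟩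

theorem SQF_aux11 {x : ℝ} (h0 : 9 / 10 < x) (h : x ≤ 19 / 20) :
    0 < 10 * (1 - x) ∧ 10 * (1 - x) ≤ 1 :=
  ⟨by linarith, by linarith⟩

theorem SQF_aux12 {δ δ' : ℝ} (d0 : 0 < δ) (d1 : 3 * δ < δ') (d2 : δ' < 1 / 100) :
    0 < δ' ∧ δ < 1 / 100 :=
  ⟨by linarith, by linarith⟩

theorem SQF_aux13 {x y u η : ℝ} (hu : 0 ≤ u) (hu1 : u ≤ 1) (hx : x < η) (hy : y < η) :
    (1 - u) * x + u * y < η := by
  rcases hu.eq_or_lt with h0 | h0
  · rw [← h0, sub_zero, one_mul, zero_mul, add_zero]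
    exact hx
  · have b1 : (1 - u) * x ≤ (1 - u) * η := mul_le_mul_of_nonneg_left hx.le (sub_nonneg.2 hu1)
    have b2 : u * y < u * η := mul_lt_mul_of_pos_left hy h0
    have e : (1 - u) * η + u * η = η := by ring
    exact (add_lt_add_of_le_of_lt b1 b2).trans_eq e

theorem SQF_aux14 {V : Type*} [AddCommGroup V] [Module ℝ V] (u : ℝ) (a b : V) :
    a + ((1 - u) • (b - a) + u • (b - a)) = b := by
  rw [← add_smul, sub_add_cancel, one_smul, add_sub_cancel]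

theorem SQF_aux15 {a b c η : ℝ} (h1 : a < η) (h2 : b < η) (h3 : c ≤ a + b) (h4 : 2 * η ≤ c) :
    False := by
  linarith

theorem SQF_aux9 {a b c : ℝ} (h : |a - 73 / 100| < 1 / 50)
    (h1 : (a - 1) ^ 2 + b ^ 2 + c ^ 2 ≤ 1 / 25) : False := by
  have hb := sq_nonneg b
  have hc := sq_nonneg c
  have h3 : (1 - a) ^ 2 ≤ (1 / 5) ^ 2 := by
    have e : (1 - a) ^ 2 = (a - 1) ^ 2 := by ring
    rw [e]
    norm_num
    linarith
  have h4 := (abs_le_of_sq_le_sq' h3 (by norm_num)).2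
  have h5 := (abs_lt.1 h).2
  linarith

theorem wall_sub_XX {δ δ' κ β : ℝ} (hP : Par δ δ' κ β) {p : R4}
    (hp : p ∈ wallS δ ∪ wallS δ') : p ∈ XX δ' κ β := by
  obtain ⟨d0, d1, d2, k0, k1, lo, hi⟩ := hP
  have h01 : 0 ≤ p.1 ∧ p.1 ≤ 1 := by
    rcases hp with hp | hp
    · exact ⟨hp.1, hp.2.1⟩
    · exact ⟨hp.1, hp.2.1⟩
  have dd : δ < δ' := by
    clear lo hi hp h01 k0 k1
    linarith
  have hlo : 1 / 25 - 3 * δ' ≤ rsq 1 p := by
    rcases hp with hp | hp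
    · refine le_trans ?_ hp.2.2.1
      exact sub_le_sub_left (mul_le_mul_of_nonneg_left dd.le (by norm_num)) _
    · exact hp.2.2.1
  have hhi : rsq 1 p ≤ 1 / 25 := by
    rcases hp with hp | hp
    · exact hp.2.2.2.trans (sub_le_self _ d0.le)
    · exact hp.2.2.2.trans (sub_le_self _ (d0.trans dd).le)
  refine ⟨⟨h01.1, h01.2, hlo, hhi.trans (by norm_num)⟩, ?_⟩
  rintro (h | h)
  · have h3 : (p.2.1 - 1) ^ 2 + (p.2.2.re - β) ^ 2 + p.2.2.im ^ 2 ≤ κ ^ 2 * (1 / 25) := by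
      rw [← sgi_rsq (β := β) k0 p]
      refine mul_le_mul_of_nonneg_left ?_ (sq_nonneg κ)
      have d3 : 0 ≤ 3 * δ' := mul_nonneg (by norm_num) (d0.trans dd).le
      exact h.2.2.le.trans (sub_le_self _ d3)
    rcases hp with hp | hp
    · exact (SQF_aux8 (δ := δ) k0 k1 h3).1 hi hp.2.2.1
    · exact (SQF_aux8 (δ := δ') k0 k1 h3).2 lo hp.2.2.2
  · exact SQF_aux9 h.2.2.1 hhi

theorem shell_mono {δ δ' : ℝ} (h : δ' ≤ δ) : shell δ' ⊆ shell δ :=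
  fun _ hp => ⟨hp.1, by linarith [hp.2.1], hp.2.2⟩

theorem bar_mem : bar (73 / 100) ∈ SP := by
  right
  exact ⟨rfl, by unfold bar; norm_num, by unfold bar; norm_num, rfl⟩

theorem fst_le_one {m : R3} (hm : m ∈ S2) : m.1 ≤ 1 := by
  have h : m.1 ^ 2 + m.2.re ^ 2 + m.2.im ^ 2 = 1 := hm
  nlinarith [sq_nonneg m.2.re, sq_nonneg m.2.im, sq_nonneg (m.1 - 1)]

/-! ## small values of the parameter -/

theorem ev_Yp {F : R4 → R4} {O : Set R4} {τ η : ℝ} (hO : IsOpen O) (hF : ContinuousOn F O)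
    (hP : ∀ t ∈ Icc (0 : ℝ) 1, Pt t τ ∈ O) (hη : 0 < η) :
    ∃ ε₀ > 0, ∀ ε ∈ Ioo (0 : ℝ) ε₀, ∀ s ∈ Icc (9 / 20 : ℝ) (11 / 20), ∀ t ∈ Icc (0 : ℝ) 1,
      Yp τ ε s t ∈ O ∧ dist (F (Yp τ ε s t)) (F (Pt t τ)) < η := by
  have hT : IsCompact (Icc (9 / 20 : ℝ) (11 / 20) ×ˢ Icc (0 : ℝ) 1) :=
    isCompact_Icc.prod isCompact_Icc
  have key : ∀ᶠ ε in 𝓝 (0 : ℝ), ∀ z ∈ Icc (9 / 20 : ℝ) (11 / 20) ×ˢ Icc (0 : ℝ) 1,
      Yp τ ε z.1 z.2 ∈ O ∧ dist (F (Yp τ ε z.1 z.2)) (F (Yp τ 0 z.1 z.2)) < η := by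
    refine hT.eventually_forall_of_forall_eventually fun z hz => ?_
    have hz0 : Yp τ 0 z.1 z.2 ∈ O := by
      rw [Yp_zero]
      exact hP _ hz.2
    have c1 : Tendsto (fun x : ℝ × ℝ × ℝ => Yp τ x.1 x.2.1 x.2.2) (𝓝 (0, z)) (𝓝 (Yp τ 0 z.1 z.2)) :=
      (continuous_Yp τ).tendsto (0, z)
    have c0 : Tendsto (fun x : ℝ × ℝ × ℝ => Yp τ 0 x.2.1 x.2.2) (𝓝 (0, z)) (𝓝 (Yp τ 0 z.1 z.2)) := by
      have h := (continuous_Yp τ).comp
        (f := fun x : ℝ × ℝ × ℝ => ((0 : ℝ), x.2)) (by fun_prop)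
      exact h.tendsto (0, z)
    have hFa : ContinuousAt F (Yp τ 0 z.1 z.2) := hF.continuousAt (hO.mem_nhds hz0)
    have d1 := hFa.tendsto.comp c1
    have d0 := hFa.tendsto.comp c0
    have h2 : Tendsto (fun x : ℝ × ℝ × ℝ =>
        dist (F (Yp τ x.1 x.2.1 x.2.2)) (F (Yp τ 0 x.2.1 x.2.2))) (𝓝 (0, z)) (𝓝 0) := by
      have := d1.dist d0
      rwa [dist_self] at this
    filter_upwards [c1.eventually (hO.mem_nhds hz0), h2.eventually (gt_mem_nhds hη)] with x hx hx'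
    exact ⟨hx, hx'⟩
  obtain ⟨ε₀, h0, h1⟩ := Metric.eventually_nhds_iff.1 key
  refine ⟨ε₀, h0, fun ε hε s hs t ht => ?_⟩
  have h2 := h1 (y := ε) (by rw [Real.dist_eq, sub_zero, abs_of_pos hε.1]; exact hε.2) (s, t) ⟨hs, ht⟩
  rw [Yp_zero] at h2
  exact h2

theorem ev_sq {F : R4 → R4} {O K : Set R4} {η : ℝ} (hO : IsOpen O) (hF : ContinuousOn F O)
    (hK : IsCompact K) (hP : ∀ p ∈ K, sq 0 p ∈ O) (hη : 0 < η) :
    ∃ ε₀ > 0, ∀ ε ∈ Ioo (0 : ℝ) ε₀, ∀ p ∈ K, sq ε p ∈ O ∧ dist (F (sq ε p)) (F (sq 0 p)) < η := by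
  have key : ∀ᶠ ε in 𝓝 (0 : ℝ), ∀ p ∈ K, 0 ≤ ε → sq ε p ∈ O ∧ dist (F (sq ε p)) (F (sq 0 p)) < η := by
    refine hK.eventually_forall_of_forall_eventually fun p hp => ?_
    have hmem : ((0 : ℝ), p) ∈ Ici (0 : ℝ) ×ˢ (univ : Set R4) := ⟨self_mem_Ici, mem_univ _⟩
    have c1 : Tendsto (fun x : ℝ × R4 => sq x.1 x.2) (𝓝[Ici (0 : ℝ) ×ˢ univ] ((0 : ℝ), p))
        (𝓝 (sq 0 p)) := hS3 (0, p) hmem
    have c0 : Tendsto (fun x : ℝ × R4 => sq 0 x.2) (𝓝[Ici (0 : ℝ) ×ˢ univ] ((0 : ℝ), p))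
        (𝓝 (sq 0 p)) := by
      have h : ContinuousOn ((fun q : ℝ × R4 => sq q.1 q.2) ∘ fun x : ℝ × R4 => ((0 : ℝ), x.2))
          (Ici (0 : ℝ) ×ˢ univ) :=
        hS3.comp (by fun_prop) (fun x _ => ⟨self_mem_Ici, mem_univ _⟩)
      exact h (0, p) hmem
    have hFa : ContinuousAt F (sq 0 p) := hF.continuousAt (hO.mem_nhds (hP p hp))
    have d1 := hFa.tendsto.comp c1
    have d0 := hFa.tendsto.comp c0
    have h2 : Tendsto (fun x : ℝ × R4 => dist (F (sq x.1 x.2)) (F (sq 0 x.2)))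
        (𝓝[Ici (0 : ℝ) ×ˢ univ] ((0 : ℝ), p)) (𝓝 0) := by
      have := d1.dist d0
      rwa [dist_self] at this
    have h3 := (c1.eventually (hO.mem_nhds (hP p hp))).and (h2.eventually (gt_mem_nhds hη))
    rw [eventually_nhdsWithin_iff] at h3
    filter_upwards [h3] with x hx h0
    exact hx ⟨h0, mem_univ _⟩
  obtain ⟨ε₀, h0, h1⟩ := Metric.eventually_nhds_iff.1 key
  refine ⟨ε₀, h0, fun ε hε p hp => ?_⟩
  exact h1 (y := ε) (by rw [Real.dist_eq, sub_zero, abs_of_pos hε.1]; exact hε.2) p hp hε.1.le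

/-- the collar coordinate -/
noncomputable def tt (q s : ℝ) : ℝ := min 1 (10 * (1 - (mm q s).1))

theorem tt_mem (q s : ℝ) : tt q s ∈ Icc (0 : ℝ) 1 := by
  have h := fst_le_one (R.EVM.mm_S2' q s)
  exact ⟨le_min zero_le_one (by linarith), min_le_left _ _⟩

theorem continuous_mm' : Continuous (fun z : ℝ × ℝ => mm z.1 z.2) := R.EVM.contDiff_mm.continuous

theorem continuous_tt : Continuous (fun z : ℝ × ℝ => tt z.1 z.2) := by
  unfold tt
  exact continuous_const.min (continuous_const.mul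
    (continuous_const.sub (continuous_fst.comp continuous_mm')))

theorem mm_edge_all {q s : ℝ} (h : q = 0 ∨ q = 1 ∨ s = 9 / 20 ∨ s = 11 / 20) : mm q s = (1, 0) := by
  rcases h with h | h | h | h
  · exact R.EVM.mm_ends' q s (Or.inl h)
  · exact R.EVM.mm_ends' q s (Or.inr h)
  · exact R.EVM.mm_edge' q s (Or.inl h.le)
  · exact R.EVM.mm_edge' q s (Or.inr h.ge)

/-- the main square -/
noncomputable def ff (F : R4 → R4) (g : R3 → R4) (τ ε q s : ℝ) : R4 :=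
  g (mm q s) + (F (Yp τ ε s (tt q s)) - F (Pt (tt q s) τ))

/-- the homotopy -/
noncomputable def HH (F : R4 → R4) (g : R3 → R4) (τ ε : ℝ) (x : ℝ × ℝ × ℝ) : R4 :=
  g (mm x.2.1 x.2.2) +
    ((1 - x.1) • (F (Yp τ ε x.2.2 (tt x.2.1 x.2.2)) - F (Pt (tt x.2.1 x.2.2) τ)) +
      x.1 • (F (Yp τ ε x.2.2 0) - F (Pt 0 τ)))

end SQF

open SQF in
/-- MODULE SQF. -/
theorem m_SQF : StSQF' := by
  intro F δ₀ hF
  obtain ⟨O, hO, hLO, hFO, hFc⟩ :=
    emb_open (hS4.2.2.2.2.2.2.2.2.1.union (isCompact_shell δ₀)) hF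
  have hbO : Pt 1 0 ∈ O := by
    have h : Pt 1 0 = bar (73 / 100) := by
      unfold Pt bar
      simp
    rw [h]
    exact hLO (Or.inl bar_mem)
  have hcP : Continuous (fun w : ℝ => Pt 1 w) := by
    unfold Pt
    refine continuous_const.prodMk (continuous_const.prodMk ?_)
    exact Complex.continuous_ofReal.comp (by fun_prop)
  obtain ⟨τ₀, hτ0, hτ⟩ := Metric.isOpen_iff.1 (hO.preimage hcP) 0 hbO
  refine ⟨τ₀, hτ0, ?_⟩
  intro τ₁ hτ₁ δ δ' κ β hP hδ g hg hg1 hg2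
  have hPO : ∀ t ∈ Icc (0 : ℝ) 1, Pt t τ₁ ∈ O := by
    intro t ht
    have h1 : Pt t τ₁ = Pt 1 (t * τ₁) := by
      unfold Pt
      rw [one_mul]
    rw [h1]
    apply hτ
    rw [Metric.mem_ball, Real.dist_eq, sub_zero, abs_of_nonneg (mul_nonneg ht.1 hτ₁.1.le)]
    exact (mul_le_of_le_one_left hτ₁.1.le ht.2).trans_lt hτ₁.2
  have hRO : ∀ p ∈ Reg δ', sq 0 p ∈ O := fun p hp =>
    hLO ((sq0_Reg hp).imp id (fun h => shell_mono hδ h))
  have hsqc : ContinuousOn (fun p : R4 => F (sq 0 p)) (Reg δ') := by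
    have h : Continuous (fun p : R4 => sq 0 p) := by
      have h2 : ContinuousOn ((fun q : ℝ × R4 => sq q.1 q.2) ∘ fun p : R4 => ((0 : ℝ), p)) univ :=
        hS3.comp (by fun_prop) (fun x _ => ⟨self_mem_Ici, mem_univ _⟩)
      exact continuousOn_univ.1 h2
    exact hFc.comp h.continuousOn hRO
  have hWX : ∀ p ∈ wallS δ ∪ wallS δ', p ∈ XX δ' κ β := fun p hp => wall_sub_XX hP hp
  have hδ'm : δ' ∈ Ioo (0 : ℝ) (1 / 100) := ⟨(SQF_aux12 hP.d0 hP.d1 hP.d2).1, hP.d2⟩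
  have hδm : δ ∈ Ioo (0 : ℝ) (1 / 100) := ⟨hP.d0, (SQF_aux12 hP.d0 hP.d1 hP.d2).2⟩
  have hgP : ∀ m ∈ S2, 9 / 10 ≤ m.1 → g m = F (Pt (10 * (1 - m.1)) τ₁) := hg1
  -- the limit is off the limit of the region
  have hoff : ∀ m ∈ S2, m.1 ≤ 19 / 20 → ∀ p ∈ XX δ' κ β, g m ≠ F (sq 0 p) := by
    intro m hm hm1 p hp he
    rcases le_or_gt m.1 (9 / 10) with h | h
    · exact hg2 m hm h p hp he
    · rw [hgP m hm h.le] at he
      have hx := SQF_aux11 h hm1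
      have h3 := hFO.2 (hPO _ ⟨hx.1.le, hx.2⟩) (hRO p hp.1) he
      have h4 : (10 * (1 - m.1)) * τ₁ ≠ 0 := mul_ne_zero hx.1.ne' hτ₁.1.ne'
      exact Pt_notMem (δ := δ') h4 (h3 ▸ sq0_Reg hp.1)
  have hoffW : ∀ m ∈ S2, ∀ p ∈ wallS δ ∪ wallS δ', g m ≠ F (sq 0 p) := by
    intro m hm p hp he
    rcases le_or_gt m.1 (19 / 20) with h | h
    · exact hoff m hm h p (hWX p hp) he
    · have hx := SQF_aux10 h (fst_le_one hm)
      rw [hgP m hm hx.1] at he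
      have h3 := hFO.2 (hPO _ ⟨hx.2.1, hx.2.2.trans one_half_lt_one.le⟩) (hRO p (hWX p hp).1) he
      have h5 : rsq 1 p ≤ 1 / 25 := by
        rcases hp with hp | hp
        · exact hp.2.2.2.trans (sub_le_self _ hP.d0.le)
        · exact hp.2.2.2.trans (sub_le_self _ hδ'm.1.le)
      rw [hS4.2.2.1 p (Or.inr (Or.inl h5))] at h3
      have h6 : rsq 1 (Pt (10 * (1 - m.1)) τ₁) = rsq 1 p := by
        rw [h3]
        rfl
      rw [rsq_Pt] at h6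
      exact SQF_aux2 (h6.trans_le h5)
  have hC1 : IsCompact {m : R3 | m ∈ S2 ∧ m.1 ≤ 19 / 20} :=
    R.isCompact_S2.inter_right (isClosed_le continuous_fst continuous_const)
  have hA1 : IsCompact ((fun p : R4 => F (sq 0 p)) '' XX δ' κ β) :=
    (isCompact_XX δ' κ β).image_of_continuousOn (hsqc.mono fun p hp => hp.1)
  have hA2 : IsCompact ((fun p : R4 => F (sq 0 p)) '' (wallS δ ∪ wallS δ')) :=
    ((isCompact_wall hδm).union (isCompact_wall hδ'm)).image_of_continuousOn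
      (hsqc.mono fun p hp => (hWX p hp).1)
  have M1 := R.margin hC1 (hg.mono fun m hm => hm.1) hA1 (by
    rintro m hm ⟨p, hp, he⟩
    exact hoff m hm.1 hm.2 p hp he.symm)
  have M2 := R.margin R.isCompact_S2 hg hA2 (by
    rintro m hm ⟨p, hp, he⟩
    exact hoffW m hm p hp he.symm)
  obtain ⟨η, ⟨m1, m2⟩, hη⟩ := ((M1.and M2).and self_mem_nhdsWithin).exists
  have hη' : 0 < η := hη
  obtain ⟨ε₁, he1, E1⟩ := ev_Yp hO hFc hPO hη'
  obtain ⟨ε₂, he2, E2⟩ := ev_sq hO hFc (isCompact_Reg δ') hRO hη'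
  refine ⟨min ε₁ ε₂, lt_min he1 he2, ?_⟩
  intro ε hε
  have hε0 : 0 < ε := hε.1
  have E1' := E1 ε ⟨hε0, hε.2.trans_le (min_le_left _ _)⟩
  have E2' := E2 ε ⟨hε0, hε.2.trans_le (min_le_right _ _)⟩
  have hbd : ∀ q s : ℝ, (q = 0 ∨ q = 1 ∨ s = 9 / 20 ∨ s = 11 / 20) →
      g (mm q s) = F (Pt 0 τ₁) ∧ tt q s = 0 := by
    intro q s h
    have hm := mm_edge_all h
    constructor
    · rw [hm, hgP (1, 0) (by show nsq _ = 1; unfold nsq; simp) (by norm_num)]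
      congr 2
      norm_num
    · unfold tt
      rw [hm]
      norm_num
  have hgc : ContinuousOn (fun z : ℝ × ℝ => g (mm z.1 z.2)) univ :=
    hg.comp continuous_mm'.continuousOn fun z _ => R.EVM.mm_S2' z.1 z.2
  have hYc : ContinuousOn (fun z : ℝ × ℝ => F (Yp τ₁ ε z.2 (tt z.1 z.2)))
      (Icc (0 : ℝ) 1 ×ˢ Icc (9 / 20 : ℝ) (11 / 20)) := by
    have hc1 : Continuous (fun z : ℝ × ℝ => Yp τ₁ ε z.2 (tt z.1 z.2)) :=
      Continuous.comp (g := fun x : ℝ × ℝ × ℝ => Yp τ₁ x.1 x.2.1 x.2.2)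
        (f := fun z : ℝ × ℝ => (ε, z.2, tt z.1 z.2)) (continuous_Yp τ₁)
        (continuous_const.prodMk (continuous_snd.prodMk continuous_tt))
    exact hFc.comp hc1.continuousOn fun z hz => (E1' z.2 hz.2 _ (tt_mem z.1 z.2)).1
  have hY0c : ContinuousOn (fun z : ℝ × ℝ => F (Yp τ₁ ε z.2 0))
      (Icc (0 : ℝ) 1 ×ˢ Icc (9 / 20 : ℝ) (11 / 20)) := by
    have hc1 : Continuous (fun z : ℝ × ℝ => Yp τ₁ ε z.2 0) :=
      Continuous.comp (g := fun x : ℝ × ℝ × ℝ => Yp τ₁ x.1 x.2.1 x.2.2)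
        (f := fun z : ℝ × ℝ => (ε, z.2, 0)) (continuous_Yp τ₁)
        (continuous_const.prodMk (continuous_snd.prodMk continuous_const))
    exact hFc.comp hc1.continuousOn fun z hz => (E1' z.2 hz.2 0 (left_mem_Icc.2 zero_le_one)).1
  have hPc : ContinuousOn (fun z : ℝ × ℝ => F (Pt (tt z.1 z.2) τ₁)) univ := by
    refine hFc.comp (Continuous.continuousOn ?_) fun z _ => hPO _ (tt_mem z.1 z.2)
    unfold Pt
    refine continuous_const.prodMk (continuous_const.prodMk ?_)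
    exact Complex.continuous_ofReal.comp (continuous_tt.mul continuous_const)
  -- the distance of the homotopy to the sphere
  have hnear : ∀ u ∈ Icc (0 : ℝ) 1, ∀ q : ℝ, ∀ s ∈ Icc (9 / 20 : ℝ) (11 / 20),
      dist (HH F g τ₁ ε (u, q, s)) (g (mm q s)) < η := by
    intro u hu q s hs
    have a1 := (E1' s hs _ (tt_mem q s)).2
    have a2 := (E1' s hs 0 (left_mem_Icc.2 zero_le_one)).2
    rw [dist_eq_norm] at a1 a2 ⊢
    have e : HH F g τ₁ ε (u, q, s) - g (mm q s) =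
        (1 - u) • (F (Yp τ₁ ε s (tt q s)) - F (Pt (tt q s) τ₁)) +
          u • (F (Yp τ₁ ε s 0) - F (Pt 0 τ₁)) := by
      show g (mm q s) + _ - g (mm q s) = _
      exact add_sub_cancel_left _ _
    rw [e]
    refine (norm_add_le _ _).trans_lt ?_
    rw [norm_smul, norm_smul, Real.norm_eq_abs, Real.norm_eq_abs, abs_of_nonneg hu.1,
      abs_of_nonneg (sub_nonneg.2 hu.2)]
    exact SQF_aux13 hu.1 hu.2 a1 a2
  have hf0 : ∀ q s : ℝ, HH F g τ₁ ε (0, q, s) = ff F g τ₁ ε q s := by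
    intro q s
    show g (mm q s) + ((1 - (0 : ℝ)) • _ + (0 : ℝ) • _) = _
    rw [sub_zero, one_smul, zero_smul, add_zero]
    rfl
  refine ⟨ff F g τ₁ ε, HH F g τ₁ ε, ?_, ?_, ?_, ?_⟩
  · exact (hgc.mono (subset_univ _)).add (hYc.sub (hPc.mono (subset_univ _)))
  · intro q hq s hs
    refine ⟨?_, ?_, hf0 q s, ?_⟩
    · intro p hp he
      rcases le_or_gt (mm q s).1 (19 / 20) with h | h
      · have c1 := hnear 0 (left_mem_Icc.2 zero_le_one) q s hs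
        rw [hf0 q s, he] at c1
        have c2 := (E2' p hp.1).2
        have c3 := m1 (mm q s) ⟨R.EVM.mm_S2' q s, h⟩ _ ⟨p, hp, rfl⟩
        have c4 := dist_triangle (g (mm q s)) (F (sq ε p)) (F (sq 0 p))
        rw [dist_comm] at c1
        exact SQF_aux15 c1 c2 c4 c3
      · have hx := SQF_aux10 h (fst_le_one (R.EVM.mm_S2' q s))
        have ht : tt q s = 10 * (1 - (mm q s).1) :=
          min_eq_right (hx.2.2.trans one_half_lt_one.le)
        have e : ff F g τ₁ ε q s = F (Yp τ₁ ε s (tt q s)) := by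
          unfold SQF.ff
          rw [hgP _ (R.EVM.mm_S2' q s) hx.1, ← ht]
          exact add_sub_cancel _ _
        rw [e] at he
        have h3 := hFO.2 (E1' s hs _ (tt_mem q s)).1 (E2' p hp.1).1 he
        exact hp.2 (Or.inr (chn_of hε0 hτ₁.1.le hs (tt_mem q s).1 (ht.le.trans hx.2.2) h3))
    · intro h
      obtain ⟨h1, h2⟩ := hbd q s h
      show g (mm q s) + (F (Yp τ₁ ε s (tt q s)) - F (Pt (tt q s) τ₁)) = _
      rw [h1, h2, ← Yp_t0 τ₁]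
      exact add_sub_cancel _ _
    · show g (mm q s) + ((1 - (1 : ℝ)) • _ + (1 : ℝ) • (F (Yp τ₁ ε s 0) - F (Pt 0 τ₁))) = _
      rw [sub_self, zero_smul, zero_add, one_smul, Yp_t0, Pt_zero]
      rfl
  · have p2 : Continuous (fun x : ℝ × ℝ × ℝ => x.2) := continuous_snd
    have hmaps : MapsTo (fun x : ℝ × ℝ × ℝ => x.2)
        (Icc (0 : ℝ) 1 ×ˢ (Icc (0 : ℝ) 1 ×ˢ Icc (9 / 20 : ℝ) (11 / 20)))
        (Icc (0 : ℝ) 1 ×ˢ Icc (9 / 20 : ℝ) (11 / 20)) := fun x hx => hx.2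
    have k1 := (hgc.mono (subset_univ _)).comp p2.continuousOn hmaps
    have k2 := hYc.comp p2.continuousOn hmaps
    have k3 := hY0c.comp p2.continuousOn hmaps
    have k4 := (hPc.mono (subset_univ _)).comp p2.continuousOn hmaps
    have k5 : ContinuousOn (fun x : ℝ × ℝ × ℝ => (1 - x.1))
        (Icc (0 : ℝ) 1 ×ˢ (Icc (0 : ℝ) 1 ×ˢ Icc (9 / 20 : ℝ) (11 / 20))) :=
      (continuous_const.sub continuous_fst).continuousOn
    have k6 : ContinuousOn (fun x : ℝ × ℝ × ℝ => x.1)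
        (Icc (0 : ℝ) 1 ×ˢ (Icc (0 : ℝ) 1 ×ˢ Icc (9 / 20 : ℝ) (11 / 20))) :=
      continuous_fst.continuousOn
    exact k1.add ((k5.smul (k2.sub k4)).add (k6.smul (k3.sub continuousOn_const)))
  · intro u hu q hq s hs
    constructor
    · intro p hp he
      have c1 := hnear u hu q s hs
      rw [he, dist_comm] at c1
      have c2 := (E2' p (hWX p hp).1).2
      have c3 := m2 (mm q s) (R.EVM.mm_S2' q s) _ ⟨p, hp, rfl⟩
      have c4 := dist_triangle (g (mm q s)) (F (sq ε p)) (F (sq 0 p))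
      exact SQF_aux15 c1 c2 c4 c3
    · intro h
      obtain ⟨h1, h2⟩ := hbd q s h
      show g (mm q s) + ((1 - u) • (F (Yp τ₁ ε s (tt q s)) - F (Pt (tt q s) τ₁)) +
        u • (F (Yp τ₁ ε s 0) - F (Pt 0 τ₁))) = _
      rw [h1, h2, ← Yp_t0 τ₁]
      exact SQF_aux14 u _ _

end Pool.Agent.Helper27.S5
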